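import Pool.Agent.Y262.EG.Stm

/-!
# Project EG, part JAC3: the integrals of the variation formula
-/

set_option autoImplicit false

open Set Filter Topology MeasureTheory
open scoped ContDiff

noncomputable section

namespace Pool.Agent.Y252.EG.Jac3

open Pool.Agent.Y262.EG

/-- Hölder's inequality with the exponents `40 / 39` and `40` -/
lemma hold (a b : ℝ → ℝ) (T : ℝ) (hT : 0 < T) (ha : Continuous a) (hb : Continuous b)
    (ha0 : ∀ t ∈ Icc (0 : ℝ) T, 0 ≤ a t) (hb0 : ∀ t ∈ Icc (0 : ℝ) T, 0 ≤ b t) :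
    ∫ t in (0 : ℝ)..T, (a t) ^ (39 / 40 : ℝ) * (b t) ^ (1 / 40 : ℝ) ≤
      (∫ t in (0 : ℝ)..T, a t) ^ (39 / 40 : ℝ) * (∫ t in (0 : ℝ)..T, b t) ^ (1 / 40 : ℝ) := by
  rw [intervalIntegral.integral_of_le hT.le, intervalIntegral.integral_of_le hT.le,
    intervalIntegral.integral_of_le hT.le]
  have hpq : (40 / 39 : ℝ).HolderConjugate 40 := by
    rw [Real.holderConjugate_iff]
    norm_num
  have hca : Continuous fun t => (a t) ^ (39 / 40 : ℝ) :=
    ha.rpow_const fun t => Or.inr (by norm_num)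
  have hcb : Continuous fun t => (b t) ^ (1 / 40 : ℝ) :=
    hb.rpow_const fun t => Or.inr (by norm_num)
  have hmem : ∀ (f : ℝ → ℝ), Continuous f → ∀ p : ENNReal,
      MemLp f p (volume.restrict (Ioc 0 T)) := by
    intro f hf p
    obtain ⟨B, hB⟩ := (isCompact_Icc (a := (0 : ℝ)) (b := T)).exists_bound_of_continuousOn
      hf.continuousOn
    have : IsFiniteMeasure (volume.restrict (Ioc (0 : ℝ) T)) := by
      constructor
      simp
    refine MemLp.of_bound hf.aestronglyMeasurable B ?_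
    rw [ae_restrict_iff' measurableSet_Ioc]
    exact Eventually.of_forall fun t ht => hB t ⟨ht.1.le, ht.2⟩
  have hnn : ∀ (f : ℝ → ℝ), (∀ t ∈ Icc (0 : ℝ) T, 0 ≤ f t) →
      0 ≤ᵐ[volume.restrict (Ioc 0 T)] f := by
    intro f hf
    rw [EventuallyLE, ae_restrict_iff' measurableSet_Ioc]
    exact Eventually.of_forall fun t ht => hf t ⟨ht.1.le, ht.2⟩
  have h := integral_mul_le_Lp_mul_Lq_of_nonneg (μ := volume.restrict (Ioc 0 T)) hpq
    (hnn _ fun t ht => Real.rpow_nonneg (ha0 t ht) (39 / 40 : ℝ))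
    (hnn _ fun t ht => Real.rpow_nonneg (hb0 t ht) (1 / 40 : ℝ))
    (hmem _ hca _) (hmem _ hcb _)
  refine h.trans (le_of_eq ?_)
  have e1 : ∫ t in Ioc 0 T, ((a t) ^ (39 / 40 : ℝ)) ^ (40 / 39 : ℝ) = ∫ t in Ioc 0 T, a t := by
    refine setIntegral_congr_fun measurableSet_Ioc fun t ht => ?_
    rw [← Real.rpow_mul (ha0 t ⟨ht.1.le, ht.2⟩)]
    norm_num
  have e2 : ∫ t in Ioc 0 T, ((b t) ^ (1 / 40 : ℝ)) ^ (40 : ℝ) = ∫ t in Ioc 0 T, b t := by
    refine setIntegral_congr_fun measurableSet_Ioc fun t ht => ?_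
    rw [← Real.rpow_mul (hb0 t ⟨ht.1.le, ht.2⟩)]
    norm_num
  rw [e1, e2]
  norm_num

theorem jac3 : StJac1 → StJac3 := by
  intro h1 k c c1 s s1 hJ hk T u y hT hu hy d C hd hC hdk
  obtain ⟨-, -, -, hrest⟩ := h1 k c c1 s s1 hJ hk
  obtain ⟨hu1, hIcc, -, -, -, hI1, hI2⟩ := hrest T u y (fun t => c1 t + u * s1 t) hT hu hy
    (fun _ => rfl)
  have hkc := hJ.kc
  have hcc : Continuous c := continuous_iff_continuousAt.2 fun t => (hJ.dc t).continuousAt
  have hsc : Continuous s := continuous_iff_continuousAt.2 fun t => (hJ.ds t).continuousAt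
  have hyc : Continuous y := by
    have : y = fun t => c t + u * s t := funext hy
    rw [this]
    exact hcc.add (hsc.const_mul u)
  have hu0 : u ≤ 0 := hu1.trans (by
    have : 0 < 1 / T := by positivity
    linarith)
  have y0 : ∀ t ∈ Icc (0 : ℝ) T, 0 ≤ y t := fun t ht => (hIcc t ht).1
  have y1 : ∀ t ∈ Icc (0 : ℝ) T, y t ≤ 1 := fun t ht => (hIcc t ht).2.1
  have s0 : ∀ t ∈ Icc (0 : ℝ) T, 0 ≤ s t := fun t ht => (hIcc t ht).2.2.2.1
  have ys : ∀ t ∈ Icc (0 : ℝ) T, y t * s t ≤ t := fun t ht => (hIcc t ht).2.2.2.2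
  set Z := ∫ t in (0 : ℝ)..T, (1 + t) * y t with hZ
  have hZ0 : 0 ≤ Z := intervalIntegral.integral_nonneg hT.le fun t ht =>
    mul_nonneg (by linarith [ht.1]) (y0 t ht)
  have hZc : Continuous fun t => (1 + t) * y t := (continuous_const.add continuous_id).mul hyc
  have hZr : 0 ≤ Z ^ (1 / 40 : ℝ) := Real.rpow_nonneg hZ0 _
  have hkp : Continuous fun t => (k t) ^ (39 / 40 : ℝ) :=
    hkc.rpow_const fun t => Or.inr (by norm_num)
  -- the first integral
  have A1 : ∫ t in (0 : ℝ)..T, (y t) ^ 2 * s t * (k t) ^ (39 / 40 : ℝ) ≤ 2 * Z ^ (1 / 40 : ℝ) := by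
    have e : ∫ t in (0 : ℝ)..T, (y t) ^ 2 * s t * (k t) ^ (39 / 40 : ℝ) =
        ∫ t in (0 : ℝ)..T, (k t * y t * (y t * s t)) ^ (39 / 40 : ℝ) *
          ((y t) ^ 2 * s t) ^ (1 / 40 : ℝ) := by
      refine intervalIntegral.integral_congr fun t ht => ?_
      rw [uIcc_of_le hT.le] at ht
      have hq : 0 ≤ (y t) ^ 2 * s t := mul_nonneg (sq_nonneg _) (s0 t ht)
      have e1 : k t * y t * (y t * s t) = k t * ((y t) ^ 2 * s t) := by ring
      rw [e1, Real.mul_rpow (hk t) hq, mul_assoc ((k t) ^ (39 / 40 : ℝ)),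
        ← Real.rpow_add_of_nonneg hq (by norm_num) (by norm_num)]
      norm_num
      ring
    rw [e]
    refine (hold _ _ T hT ((hkc.mul hyc).mul (hyc.mul hsc)) ((hyc.pow 2).mul hsc) ?_ ?_).trans ?_
    · intro t ht
      exact mul_nonneg (mul_nonneg (hk t) (y0 t ht)) (mul_nonneg (y0 t ht) (s0 t ht))
    · intro t ht
      exact mul_nonneg (sq_nonneg _) (s0 t ht)
    · have i1 : 0 ≤ ∫ t in (0 : ℝ)..T, k t * y t * (y t * s t) :=
        intervalIntegral.integral_nonneg hT.le fun t ht =>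
          mul_nonneg (mul_nonneg (hk t) (y0 t ht)) (mul_nonneg (y0 t ht) (s0 t ht))
      have i2 : 0 ≤ ∫ t in (0 : ℝ)..T, (y t) ^ 2 * s t :=
        intervalIntegral.integral_nonneg hT.le fun t ht => mul_nonneg (sq_nonneg _) (s0 t ht)
      have i3 : ∫ t in (0 : ℝ)..T, (y t) ^ 2 * s t ≤ Z := by
        refine intervalIntegral.integral_mono_on hT.le
          (((hyc.pow 2).mul hsc).intervalIntegrable _ _) (hZc.intervalIntegrable _ _) ?_
        intro t ht
        have := mul_le_mul_of_nonneg_left (ys t ht) (y0 t ht)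
        have h2 := y0 t ht
        nlinarith
      refine mul_le_mul ?_ (Real.rpow_le_rpow i2 i3 (by norm_num)) (Real.rpow_nonneg i2 _)
        (by norm_num)
      calc (∫ t in (0 : ℝ)..T, k t * y t * (y t * s t)) ^ (39 / 40 : ℝ)
          ≤ 2 ^ (39 / 40 : ℝ) := Real.rpow_le_rpow i1 hI1 (by norm_num)
        _ ≤ 2 ^ (1 : ℝ) := Real.rpow_le_rpow_of_exponent_le (by norm_num) (by norm_num)
        _ = 2 := by norm_num
  -- the second integral
  have A2 : ∫ t in (0 : ℝ)..T, (y t) ^ 3 * (k t) ^ (39 / 40 : ℝ) ≤ (1 - u) * Z ^ (1 / 40 : ℝ) := by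
    have e : ∫ t in (0 : ℝ)..T, (y t) ^ 3 * (k t) ^ (39 / 40 : ℝ) ≤
        ∫ t in (0 : ℝ)..T, (k t * y t) ^ (39 / 40 : ℝ) * (y t) ^ (1 / 40 : ℝ) := by
      refine intervalIntegral.integral_mono_on hT.le
        (((hyc.pow 3).mul hkp).intervalIntegrable _ _)
        ((((hkc.mul hyc).rpow_const fun t => Or.inr (by norm_num)).mul
          (hyc.rpow_const fun t => Or.inr (by norm_num))).intervalIntegrable _ _) ?_
      intro t ht
      have hq := y0 t ht
      rw [Real.mul_rpow (hk t) hq, mul_assoc ((k t) ^ (39 / 40 : ℝ)),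
        ← Real.rpow_add_of_nonneg hq (by norm_num) (by norm_num)]
      norm_num
      rw [mul_comm]
      refine mul_le_mul_of_nonneg_left ?_ (Real.rpow_nonneg (hk t) _)
      calc (y t) ^ 3 = y t * (y t * y t) := by ring
        _ ≤ y t * 1 := by
          refine mul_le_mul_of_nonneg_left ?_ hq
          nlinarith [y1 t ht]
        _ = y t := mul_one _
    refine e.trans ((hold _ _ T hT (hkc.mul hyc) hyc ?_ y0).trans ?_)
    · intro t ht
      exact mul_nonneg (hk t) (y0 t ht)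
    · have i1 : 0 ≤ ∫ t in (0 : ℝ)..T, k t * y t :=
        intervalIntegral.integral_nonneg hT.le fun t ht => mul_nonneg (hk t) (y0 t ht)
      have i2 : 0 ≤ ∫ t in (0 : ℝ)..T, y t :=
        intervalIntegral.integral_nonneg hT.le fun t ht => y0 t ht
      have i3 : ∫ t in (0 : ℝ)..T, y t ≤ Z := by
        refine intervalIntegral.integral_mono_on hT.le
          (hyc.intervalIntegrable _ _) (hZc.intervalIntegrable _ _) ?_
        intro t ht
        have h2 := y0 t ht
        have h3 := ht.1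
        nlinarith
      refine mul_le_mul ?_ (Real.rpow_le_rpow i2 i3 (by norm_num)) (Real.rpow_nonneg i2 _)
        (by linarith)
      calc (∫ t in (0 : ℝ)..T, k t * y t) ^ (39 / 40 : ℝ)
          ≤ (1 - u) ^ (39 / 40 : ℝ) := Real.rpow_le_rpow i1 (by linarith) (by norm_num)
        _ ≤ (1 - u) ^ (1 : ℝ) := Real.rpow_le_rpow_of_exponent_le (by linarith) (by norm_num)
        _ = 1 - u := Real.rpow_one _
  -- bounds with `d`
  have B1 : ∀ g : ℝ → ℝ, Continuous g → (∀ t ∈ Icc (0 : ℝ) T, 0 ≤ g t) →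
      |∫ t in (0 : ℝ)..T, g t * d t| ≤ C * ∫ t in (0 : ℝ)..T, g t * (k t) ^ (39 / 40 : ℝ) := by
    intro g hg hg0
    rw [← intervalIntegral.integral_const_mul]
    refine (intervalIntegral.abs_integral_le_integral_abs hT.le).trans ?_
    refine intervalIntegral.integral_mono_on hT.le ((hg.mul hd).abs.intervalIntegrable _ _)
      (((hg.mul hkp).const_mul C).intervalIntegrable _ _) ?_
    intro t ht
    rw [abs_mul, abs_of_nonneg (hg0 t ht)]
    have := mul_le_mul_of_nonneg_left (hdk t) (hg0 t ht)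
    linarith
  have F1 : |∫ t in (0 : ℝ)..T, (y t) ^ 2 * s t * d t| ≤ 2 * C * Z ^ (1 / 40 : ℝ) := by
    refine (B1 (fun t => (y t) ^ 2 * s t) ((hyc.pow 2).mul hsc)
      fun t ht => mul_nonneg (sq_nonneg _) (s0 t ht)).trans ?_
    have := mul_le_mul_of_nonneg_left A1 hC
    linarith
  refine ⟨F1, ?_⟩
  have F2 : |∫ t in (0 : ℝ)..T, (y t) ^ 3 * d t| ≤ C * ((1 - u) * Z ^ (1 / 40 : ℝ)) := by
    refine (B1 (fun t => (y t) ^ 3) (hyc.pow 3) fun t ht => pow_nonneg (y0 t ht) 3).trans ?_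
    exact mul_le_mul_of_nonneg_left A2 hC
  have e : ∫ t in (0 : ℝ)..T, (y t) ^ 2 * c t * d t =
      (∫ t in (0 : ℝ)..T, (y t) ^ 3 * d t) + (-u) * ∫ t in (0 : ℝ)..T, (y t) ^ 2 * s t * d t := by
    have j1 : IntervalIntegrable (fun t => (y t) ^ 3 * d t) volume 0 T :=
      ((hyc.pow 3).mul hd).intervalIntegrable _ _
    have j2 : IntervalIntegrable (fun t => -u * ((y t) ^ 2 * s t * d t)) volume 0 T :=
      ((((hyc.pow 2).mul hsc).mul hd).const_mul (-u)).intervalIntegrable _ _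
    rw [← intervalIntegral.integral_const_mul, ← intervalIntegral.integral_add j1 j2]
    refine intervalIntegral.integral_congr fun t _ => ?_
    have : c t = y t - u * s t := by rw [hy t]; ring
    rw [this]
    ring
  rw [e]
  refine (abs_add_le _ _).trans ?_
  rw [abs_mul, abs_of_nonneg (by linarith : 0 ≤ -u)]
  have h5 := mul_le_mul_of_nonneg_left F1 (by linarith : 0 ≤ -u)
  have h6 : 0 ≤ C * Z ^ (1 / 40 : ℝ) := mul_nonneg hC hZr
  nlinarith [mul_nonneg (by linarith : 0 ≤ -u) h6]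

end Pool.Agent.Y252.EG.Jac3
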